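import Mathlib

set_option autoImplicit false

/-!
Finite monoids: divisibility, stability and the class `DS` of the monoids all of whose regular
`J`-classes are subsemigroups.
-/

namespace Helper68.DS

variable {M : Type} [Monoid M]

/-- `x` lies in the two-sided ideal generated by `y`. -/
def JLe (x y : M) : Prop := ∃ u v, x = u * y * v

/-- `x` and `y` generate the same two-sided ideal. -/
def JEq (x y : M) : Prop := JLe x y ∧ JLe y x

/-- `x` is regular. -/
def Reg (x : M) : Prop := ∃ z, x * z * x = x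

/-- Every regular `J`-class is closed under multiplication. -/
def IsDS (M : Type) [Monoid M] : Prop := ∀ x y : M, Reg x → JEq x y → JEq (x * y) x

lemma JLe.refl (x : M) : JLe x x := ⟨1, 1, by simp⟩

lemma JLe.trans {x y z : M} (h : JLe x y) (h' : JLe y z) : JLe x z := by
  obtain ⟨u, v, rfl⟩ := h
  obtain ⟨u', v', rfl⟩ := h'
  exact ⟨u * u', v' * v, by simp only [mul_assoc]⟩

lemma JLe.mul_left {x y : M} (h : JLe x y) (z : M) : JLe (z * x) y := by
  obtain ⟨u, v, rfl⟩ := h
  exact ⟨z * u, v, by simp only [mul_assoc]⟩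

lemma JLe.mul_right {x y : M} (h : JLe x y) (z : M) : JLe (x * z) y := by
  obtain ⟨u, v, rfl⟩ := h
  exact ⟨u, v * z, by simp only [mul_assoc]⟩

lemma JLe.of_mul (a b : M) : JLe (a * b) a := (JLe.refl a).mul_right b

lemma JLe.of_mul' (a b : M) : JLe (a * b) b := (JLe.refl b).mul_left a

lemma exists_idem [Finite M] (x : M) : ∃ N, 0 < N ∧ x ^ N * x ^ N = x ^ N := by
  obtain ⟨a, b, hab, h⟩ := Finite.exists_ne_map_eq_of_infinite (fun i : ℕ => x ^ i)
  wlog hlt : a < b generalizing a b
  · exact this b a hab.symm h.symm (by omega)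
  obtain ⟨p, hp, rfl⟩ : ∃ p, 0 < p ∧ b = a + p := ⟨b - a, by omega, by omega⟩
  have h1 : ∀ k m : ℕ, a ≤ m → x ^ (m + k * p) = x ^ m := by
    intro k
    induction k with
    | zero => intro m _; simp
    | succ k ih =>
      intro m hm
      rw [show m + (k + 1) * p = (m + p) + k * p by ring, ih (m + p) (by omega)]
      obtain ⟨r, rfl⟩ := Nat.exists_eq_add_of_le hm
      rw [show a + r + p = (a + p) + r by ring, pow_add x (a + p) r, ← h, ← pow_add]
  refine ⟨(a + 1) * p, by positivity, ?_⟩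
  rw [← pow_add, h1 (a + 1) ((a + 1) * p)]
  nlinarith

lemma pow_conj {q a b : M} (h : q = a * q * b) (N : ℕ) : q = a ^ N * q * b ^ N := by
  induction N with
  | zero => simp
  | succ N ih =>
    calc q = a * q * b := h
      _ = a * (a ^ N * q * b ^ N) * b := by rw [← ih]
      _ = a ^ (N + 1) * q * b ^ (N + 1) := by
        rw [pow_succ' a N, pow_succ b N]
        simp only [mul_assoc]

lemma conj_fix [Finite M] {q a b : M} (h : q = a * q * b) : ∃ N, 0 < N ∧ a ^ N * q = q := by
  obtain ⟨N, hN, hi⟩ := exists_idem a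
  have h1 : q = a ^ N * q * b ^ N := pow_conj h N
  refine ⟨N, hN, ?_⟩
  conv_lhs => rw [h1]
  rw [← mul_assoc, ← mul_assoc, hi, ← h1]

lemma stabR [Finite M] {q w : M} (h : JLe q (q * w)) : ∃ d, q * w * d = q := by
  obtain ⟨a, b, h⟩ := h
  obtain ⟨N, hN, hi⟩ := exists_idem (w * b)
  have h1 : q = a ^ N * q * (w * b) ^ N := pow_conj (by simpa only [mul_assoc] using h) N
  have h2 : q * (w * b) ^ N = q := by
    conv_lhs => rw [h1]
    rw [mul_assoc, hi, ← h1]
  obtain ⟨K, rfl⟩ := Nat.exists_eq_succ_of_ne_zero hN.ne'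
  refine ⟨b * (w * b) ^ K, ?_⟩
  rw [Nat.succ_eq_add_one, pow_succ'] at h2
  simpa only [mul_assoc] using h2

lemma stabL [Finite M] {k p : M} (h : JLe k (p * k)) : ∃ v, v * (p * k) = k := by
  obtain ⟨a, b, h⟩ := h
  obtain ⟨N, hN, hi⟩ := exists_idem (a * p)
  have h1 : k = (a * p) ^ N * k * b ^ N := pow_conj (by simpa only [mul_assoc] using h) N
  have h2 : (a * p) ^ N * k = k := by
    conv_lhs => rw [h1]
    rw [← mul_assoc, ← mul_assoc, hi, ← h1]
  obtain ⟨K, rfl⟩ := Nat.exists_eq_succ_of_ne_zero hN.ne'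
  refine ⟨(a * p) ^ K * a, ?_⟩
  rw [Nat.succ_eq_add_one, pow_succ] at h2
  simpa only [mul_assoc] using h2

/-- The basic property of the monoids in `DS`. -/
lemma DS_A [Finite M] (hDS : IsDS M) {p u c v : M} (h : p * u * c * v = p) :
    ∃ d, p * c * d = p := by
  obtain ⟨N, hN, hi⟩ := exists_idem (u * c * v)
  set f := (u * c * v) ^ N with hf
  have hpf : p * f = p := by
    have h1 : ∀ k : ℕ, p * (u * c * v) ^ k = p := by
      intro k
      induction k with
      | zero => simp
      | succ k ih =>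
        rw [pow_succ', ← mul_assoc]
        have : p * (u * c * v) = p := by simpa only [mul_assoc] using h
        rw [this, ih]
    exact h1 N
  obtain ⟨β, hβ⟩ : ∃ β, f = u * c * β := by
    obtain ⟨K, rfl⟩ := Nat.exists_eq_succ_of_ne_zero hN.ne'
    exact ⟨v * (u * c * v) ^ K, by rw [hf, Nat.succ_eq_add_one, pow_succ']; simp only [mul_assoc]⟩
  have hreg : Reg f := ⟨1, by rw [mul_one, hi]⟩
  have hJ : JEq f (c * β * f * u) := by
    constructor
    · refine ⟨u, c * β, ?_⟩
      calc f = f * f * f := by rw [hi, hi]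
        _ = (u * c * β) * f * (u * c * β) := by rw [← hβ]
        _ = u * (c * β * f * u) * (c * β) := by simp only [mul_assoc]
    · exact ⟨c * β, u, by simp only [mul_assoc]⟩
  obtain ⟨-, hfc⟩ := hDS f _ hreg hJ
  have hfc2 : JLe f (f * c) := by
    refine hfc.trans ⟨1, β * f * u, by simp only [mul_assoc, one_mul]⟩
  obtain ⟨d, hd⟩ := stabR hfc2
  refine ⟨d, ?_⟩
  calc p * c * d = p * f * c * d := by rw [hpf]
    _ = p * (f * c * d) := by simp only [mul_assoc]
    _ = p := by rw [hd, hpf]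

lemma DS_B [Finite M] (hDS : IsDS M) {q c : M} (hq : Reg q) (h : JLe q c) :
    ∃ d, q * c * d = q := by
  obtain ⟨z, hz⟩ := hq
  obtain ⟨γ, δ, hγ⟩ := h
  apply DS_A hDS (u := z * γ) (v := δ)
  calc q * (z * γ) * c * δ = q * z * (γ * c * δ) := by simp only [mul_assoc]
    _ = q := by rw [← hγ, hz]

lemma reg_mul {q c d : M} (hq : Reg q) (h : q * c * d = q) : Reg (q * c) := by
  obtain ⟨z, hz⟩ := hq
  refine ⟨d * z, ?_⟩
  calc q * c * (d * z) * (q * c) = (q * c * d) * z * q * c := by simp only [mul_assoc]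
    _ = q * c := by rw [h, hz]

lemma DS_list [Finite M] (hDS : IsDS M) (l : List M) : ∀ {q : M}, Reg q →
    (∀ c ∈ l, JLe q c) → ∃ d, q * l.prod * d = q := by
  induction l with
  | nil => intro q _ _; exact ⟨1, by simp⟩
  | cons c l ih =>
    intro q hq hl
    obtain ⟨d, hd⟩ := DS_B hDS hq (hl c (by simp))
    obtain ⟨d', hd'⟩ := ih (reg_mul hq hd) (fun c' hc' =>
      (hl c' (List.mem_cons_of_mem c hc')).mul_right c)
    refine ⟨d' * d, ?_⟩
    rw [List.prod_cons]
    calc q * (c * l.prod) * (d' * d) = (q * c * l.prod * d') * d := by simp only [mul_assoc]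
      _ = q := by rw [hd', hd]

/-- An element `q` whose multiple `q w` is in the same `J`-class, where `w` ends with an element
of the ideal of `q`, is regular. -/
lemma reg_of [Finite M] {q w k : M} (h1 : JLe q (q * (w * k))) (h2 : JLe k q) : Reg q := by
  obtain ⟨d, hd⟩ := stabR h1
  obtain ⟨γ, δ, rfl⟩ := h2
  have h3 : q = (q * w * γ) * q * (δ * d) := by
    conv_lhs => rw [← hd]
    simp only [mul_assoc]
  obtain ⟨N, hN, h5⟩ := conj_fix h3
  obtain ⟨K, rfl⟩ := Nat.exists_eq_succ_of_ne_zero hN.ne'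
  refine ⟨w * γ * (q * w * γ) ^ K, ?_⟩
  rw [Nat.succ_eq_add_one, pow_succ'] at h5
  simpa only [mul_assoc] using h5

end Helper68.DS
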